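import Mathlib

namespace Pool.Agent.Results.MP_106cb8_an.NotReg

open Set Filter Topology

set_option maxHeartbeats 400000

variable {X : Type} [AddCommGroup X] [Module ℝ X]

/-- Convex left-continuous modulars. -/
def Modular (ρ : X → ENNReal) : Prop :=
  (∀ u, ρ u = 0 ↔ u = 0) ∧ (∀ (a : ℝ) u, |a| = 1 → ρ (a • u) = ρ u) ∧
  (∀ a ∈ Icc (0:ℝ) 1, ∀ u v,
    ρ (a • u + (1 - a) • v) ≤ ENNReal.ofReal a * ρ u + ENNReal.ofReal (1 - a) * ρ v) ∧
  ∀ u, ∀ l > (0:ℝ), Tendsto (fun t : ℝ => ρ (t • u)) (𝓝[<] l) (𝓝 (ρ (l • u)))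

/-- Sets closed under modular limits of sequences. -/
def Closed (ρ : X → ENNReal) (C : Set X) : Prop :=
  ∀ (x : ℕ → X) (y : X), (∀ j, x j ∈ C) → Tendsto (fun j => ρ (x j - y)) atTop (𝓝 0) → y ∈ C

theorem sup_mod {ι : Type} (φ : ι → X →ₗ[ℝ] ℝ) (c : ι → ℝ) (hc : ∀ i, 0 ≤ c i)
    (h : ∀ u ≠ 0, ∃ i, c i < |φ i u|) :
    Modular fun u => ⨆ i, ENNReal.ofReal (|φ i u| - c i) := by
  refine ⟨fun u => ⟨fun hu => ?_, fun hu => by simp [hu, hc]⟩, fun a u ha => by
    simp [abs_mul, ha], fun a ha u v => iSup_le fun i => ?_, fun u l hl => ?_⟩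
  · by_contra hne
    obtain ⟨i, hi⟩ := h u hne
    have := ENNReal.ofReal_eq_zero.1 (ENNReal.iSup_eq_zero.1 hu i)
    linarith
  · have h1 := abs_add_le (a * φ i u) ((1 - a) * φ i v)
    rw [abs_mul, abs_mul, abs_of_nonneg ha.1, abs_of_nonneg (sub_nonneg.2 ha.2)] at h1
    calc _ ≤ ENNReal.ofReal (a * (|φ i u| - c i) + (1 - a) * (|φ i v| - c i)) :=
          ENNReal.ofReal_le_ofReal (by simp only [map_add, map_smul, smul_eq_mul]; linarith)
      _ ≤ _ := ENNReal.ofReal_add_le.trans (by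
          rw [ENNReal.ofReal_mul ha.1, ENNReal.ofReal_mul (sub_nonneg.2 ha.2)]
          gcongr <;> exact le_iSup (fun i => ENNReal.ofReal (|φ i _| - c i)) i)
  · refine tendsto_order.2 ⟨fun b hb => ?_, fun b hb => ?_⟩
    · obtain ⟨i, hi⟩ := lt_iSup_iff.1 hb
      have : Continuous fun t : ℝ => ENNReal.ofReal (|φ i (t • u)| - c i) := by
        simp only [map_smul, smul_eq_mul]
        exact ENNReal.continuous_ofReal.comp (by fun_prop)
      exact (((this.tendsto l).mono_left nhdsWithin_le_nhds).eventually_const_lt hi).mono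
        fun t ht => ht.trans_le (le_iSup (fun i => ENNReal.ofReal (|φ i (t • u)| - c i)) i)
    · filter_upwards [Ioo_mem_nhdsLT hl] with t ht
      refine lt_of_le_of_lt (iSup_mono fun i => ENNReal.ofReal_le_ofReal ?_) hb
      simp only [map_smul, smul_eq_mul, abs_mul, abs_of_pos ht.1, abs_of_pos hl]
      gcongr; exact ht.2.le

abbrev Y := ℝ × (ℕ × ℕ →₀ ℝ)

noncomputable def φ : ℕ ⊕ ℕ × ℕ → Y →ₗ[ℝ] ℝ
  | .inl M => (1 / (M + 1) : ℝ) • (LinearMap.fst ℝ _ _ + (Finsupp.linearCombination ℝ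
      fun p : ℕ × ℕ => if M ≤ p.1 then (1 / (p.1 + 1) : ℝ) else 0).comp (LinearMap.snd ℝ _ _))
  | .inr p => (1 / ((p.1 + 1) ^ 2 * (p.2 + 1)) : ℝ) • (Finsupp.lapply p).comp (LinearMap.snd ℝ _ _)

noncomputable def c : ℕ ⊕ ℕ × ℕ → ℝ
  | .inl M => 1 / (M + 1) * (1 / (M + 1))
  | .inr _ => 0

noncomputable def ρ (u : Y) : ENNReal := ⨆ i, ENNReal.ofReal (|φ i u| - c i)

noncomputable def w (m j : ℕ) : Y := (0, Finsupp.single (m, j) 1)

theorem φw (M m j : ℕ) :
    φ (.inl M) (w m j) = 1 / (M + 1) * if M ≤ m then (1 / (m + 1) : ℝ) else 0 := by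
  simp [φ, w]

theorem ψw (p : ℕ × ℕ) (m j : ℕ) : φ (.inr p) (w m j) =
    if p = (m, j) then (1 / ((m + 1) ^ 2 * (j + 1)) : ℝ) else 0 := by
  by_cases h : p = (m, j) <;> simp [φ, w, h]

theorem ρw (m j : ℕ) : ρ (w m j) ≤ ENNReal.ofReal (1 / (j + 1)) := by
  refine iSup_le ?_
  rintro (M | p) <;> refine ENNReal.ofReal_le_ofReal ?_
  · rw [φw, c]
    split_ifs with h
    · have : (1 / (m + 1) : ℝ) ≤ 1 / (M + 1) := by gcongr
      rw [abs_of_nonneg (by positivity), ← mul_sub]
      exact (mul_nonpos_of_nonneg_of_nonpos (by positivity) (by linarith)).trans (by positivity)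
    · rw [mul_zero, abs_zero, zero_sub]
      exact (neg_nonpos.2 (by positivity)).trans (by positivity)
  · rw [ψw, c, sub_zero]
    split_ifs
    · rw [abs_of_nonneg (by positivity)]
      refine one_div_le_one_div_of_le (by positivity) (le_mul_of_one_le_left (by positivity) ?_)
      exact one_le_pow₀ (by linarith [(by positivity : (0:ℝ) ≤ m)])
    · rw [abs_zero]; positivity

theorem leaf (m : ℕ) (l : List ℕ) (hl : l.length = m + 1) :
    ρ ((1, 0) - (l.map (w m)).sum) ≤ ENNReal.ofReal (1 / (m + 1)) := by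
  refine iSup_le ?_
  rintro (M | p) <;> refine ENNReal.ofReal_le_ofReal ?_
  · rw [map_sub, map_list_sum, List.map_map, show (φ (.inl M) ∘ w m) = fun _ => _ from
      funext (φw M m), List.map_const', List.sum_replicate, hl, c,
      show φ (.inl M) (1, 0) = 1 / (M + 1) by simp [φ]]
    have a : (0:ℝ) ≤ 1 / (M + 1) * (1 / (M + 1)) := by positivity
    have b : (0:ℝ) ≤ 1 / (m + 1) := by positivity
    split_ifs with h
    · rw [nsmul_eq_mul, show (1 / (M + 1) : ℝ) - (m + 1 : ℕ) * (1 / (M + 1) * (1 / (m + 1))) = 0 by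
        push_cast; field_simp; ring, abs_zero]
      linarith
    · have : (1 / (M + 1) : ℝ) ≤ 1 / (m + 1) := by gcongr; omega
      rw [mul_zero, smul_zero, sub_zero, abs_of_nonneg (by positivity)]
      linarith
  · rw [map_sub, show φ (.inr p) (1, 0) = 0 by simp [φ], zero_sub, abs_neg, c, sub_zero,
      map_list_sum, List.map_map]
    have h1 : ∀ x ∈ l.map (φ (.inr p) ∘ w m), 0 ≤ x ∧ x ≤ 1 / (m + 1) ^ 2 := by
      simp only [List.forall_mem_map, Function.comp, ψw]
      intro j _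
      split_ifs
      · exact ⟨by positivity, one_div_le_one_div_of_le (by positivity)
          (le_mul_of_one_le_right (by positivity) (by linarith [(by positivity : (0:ℝ) ≤ j)]))⟩
      · exact ⟨le_rfl, by positivity⟩
    rw [abs_of_nonneg (List.sum_nonneg fun x hx => (h1 x hx).1)]
    refine (List.sum_le_card_nsmul _ _ fun x hx => (h1 x hx).2).trans (le_of_eq ?_)
    rw [List.length_map, hl, nsmul_eq_mul]; push_cast; field_simp

theorem lim : Tendsto (fun j : ℕ => ENNReal.ofReal (1 / (j + 1))) atTop (𝓝 0) := by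
  simpa using ENNReal.tendsto_ofReal tendsto_one_div_add_atTop_nhds_zero_nat

theorem result : ∃ (X : Type) (_ : AddCommGroup X) (_ : Module ℝ X) (ρ : X → ENNReal),
    Modular ρ ∧ (∀ u, ρ u < ⊤) ∧ Closed ρ {0} ∧ ∃ x : X, x ≠ 0 ∧
      ∀ U V : Set X, Closed ρ Uᶜ → Closed ρ Vᶜ → x ∈ U → 0 ∈ V → (U ∩ V).Nonempty := by
  have hm : Modular ρ := sup_mod φ c (by rintro (M | p) <;> simp only [c] <;> positivity) ?_
  have hn : ∀ u, ρ (-u) = ρ u := fun u => by simpa using hm.2.1 (-1) u (by simp)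
  refine ⟨Y, inferInstance, inferInstance, ρ, hm, ?_, fun x y hx h => ?_, (1, 0), by simp,
    fun U V hU hV h1 h0 => ?_⟩
  · rintro ⟨t, a⟩
    refine lt_of_le_of_lt (iSup_le ?_) (ENNReal.ofReal_lt_top (r := |t| + ∑ p ∈ a.support, |a p|))
    have h0 : 0 ≤ ∑ p ∈ a.support, |a p| := Finset.sum_nonneg fun _ _ => abs_nonneg _
    have h1 : ∀ n : ℕ, (1 / (n + 1) : ℝ) ≤ 1 := fun n => by
      rw [div_le_one (by positivity)]; linarith [(by positivity : (0:ℝ) ≤ n)]
    rintro (M | p) <;> refine ENNReal.ofReal_le_ofReal ?_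
    · refine (sub_le_self _ (by simp only [c]; positivity)).trans ?_
      simp only [φ, LinearMap.smul_apply, LinearMap.add_apply, LinearMap.fst_apply,
        LinearMap.comp_apply, LinearMap.snd_apply, smul_eq_mul, abs_mul,
        Finsupp.linearCombination_apply, Finsupp.sum]
      refine (mul_le_of_le_one_left (abs_nonneg _) (by rw [abs_of_nonneg (by positivity)]; exact h1 M)
        ).trans ((abs_add_le _ _).trans (add_le_add le_rfl ((Finset.abs_sum_le_sum_abs _ _).trans
          (Finset.sum_le_sum fun p _ => ?_))))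
      rw [abs_mul]
      refine mul_le_of_le_one_right (abs_nonneg _) ?_
      split_ifs
      · rw [abs_of_nonneg (by positivity)]; exact h1 _
      · simp
    · have h2 : |a p| ≤ ∑ p ∈ a.support, |a p| := by
        by_cases h : p ∈ a.support
        · exact Finset.single_le_sum (f := fun p => |a p|) (fun _ _ => abs_nonneg _) h
        · rw [Finsupp.notMem_support_iff.1 h, abs_zero]; exact h0
      simp only [φ, c, sub_zero, LinearMap.smul_apply, LinearMap.comp_apply, LinearMap.snd_apply,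
        Finsupp.lapply_apply, smul_eq_mul, abs_mul]
      refine (mul_le_of_le_one_left (abs_nonneg _) ?_).trans (by linarith [abs_nonneg t])
      rw [abs_of_nonneg (by positivity), div_le_one (by positivity)]
      exact one_le_mul_of_one_le_of_one_le (one_le_pow₀ (by linarith [(by positivity : (0:ℝ) ≤ p.1)]))
        (by linarith [(by positivity : (0:ℝ) ≤ p.2)])
  · simp only [show ∀ j, x j = 0 from hx, zero_sub, hn] at h
    exact (hm.1 y).1 (tendsto_nhds_unique tendsto_const_nhds h)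
  · by_contra hc
    have h2 : ∀ m k, ∃ l : List ℕ, l.length = k ∧ (1, 0) - (l.map (w m)).sum ∈ U := by
      intro m k
      induction k with
      | zero => exact ⟨[], rfl, by simpa using h1⟩
      | succ k ih =>
        obtain ⟨l, l1, l2⟩ := ih
        by_contra hcon
        push Not at hcon
        refine hU (fun j => (1, 0) - ((j :: l).map (w m)).sum) _
          (fun j => hcon _ (by simp [l1])) ?_ l2
        refine tendsto_of_tendsto_of_tendsto_of_le_of_le tendsto_const_nhds lim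
          (fun _ => zero_le) fun j => le_trans (le_of_eq ?_) (ρw m j)
        rw [← hn]; congr 1
        simp only [List.map_cons, List.sum_cons]; abel
    choose l l1 l2 using fun m => h2 m (m + 1)
    refine hV (fun m => (1, 0) - ((l m).map (w m)).sum) 0 (fun m h => hc ⟨_, l2 m, h⟩) ?_ h0
    exact tendsto_of_tendsto_of_tendsto_of_le_of_le tendsto_const_nhds lim
      (fun _ => zero_le) fun m => by simpa using leaf m (l m) (l1 m)
  · rintro ⟨t, a⟩ h
    by_cases ha : a = 0
    · subst ha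
      have ht : 0 < |t| := abs_pos.2 fun e => h (by simp [e])
      obtain ⟨M, hM⟩ := exists_nat_one_div_lt ht
      refine ⟨.inl M, ?_⟩
      rw [show φ (.inl M) (t, 0) = 1 / (M + 1) * t by simp [φ], c, abs_mul,
        abs_of_nonneg (by positivity)]
      gcongr
    · obtain ⟨p, hp⟩ := Finsupp.ne_iff.1 ha
      refine ⟨.inr p, abs_pos.2 ?_⟩
      simp only [φ, LinearMap.smul_apply, LinearMap.comp_apply, LinearMap.snd_apply,
        Finsupp.lapply_apply, smul_eq_mul]
      exact mul_ne_zero (by positivity) hp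

end Pool.Agent.Results.MP_106cb8_an.NotReg
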